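import Pool.Agent.MP_f7db47_al.GS.UniA
import Pool.Agent.MP_f7db47_al.GS.CD

/-!
Central extensions of poly-`ℤ` groups.
-/

namespace Pool.Agent.MP_f7db47_al.GL

theorem CentA_gen {G : Type} [Group G] (d : G →* Multiplicative ℤ) :
    ∃ t : G, ∀ g, ∃ n : ℤ, g * (t ^ n)⁻¹ ∈ d.ker := by
  obtain ⟨⟨_, t, rfl⟩, ht⟩ := IsCyclic.exists_generator (α := d.range)
  refine ⟨t, fun g => ?_⟩
  obtain ⟨n, hn⟩ := ht ⟨d g, g, rfl⟩
  refine ⟨n, ?_⟩
  have h1 : d t ^ n = d g := congrArg Subtype.val hn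
  rw [MonoidHom.mem_ker, map_mul, map_inv, map_zpow, h1, mul_inv_cancel]

theorem CentA_fg {G : Type} [Group G] (hG : PolyZ G) : Group.FG G := by
  induction hG with
  | triv G h => exact Group.fg_iff.2 ⟨∅, Subsingleton.elim _ _, Set.finite_empty⟩
  | ext G d _ ih =>
    obtain ⟨t, ht⟩ := CentA_gen d
    have h1 : d.ker ⊔ Subgroup.closure {t} = ⊤ := by
      refine (Subgroup.eq_top_iff' _).2 fun g => ?_
      obtain ⟨n, hn⟩ := ht g
      rw [← inv_mul_cancel_right g (t ^ n)]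
      have h2 : t ∈ Subgroup.closure {t} := Subgroup.subset_closure (Set.mem_singleton t)
      exact Subgroup.mul_mem_sup hn (zpow_mem h2 n)
    exact Group.fg_def.2 (h1 ▸ ((Group.fg_iff_subgroup_fg _).1 ih).sup
      ((Subgroup.fg_iff _).2 ⟨_, rfl, Set.finite_singleton t⟩))

theorem CentA_lift {U Q : Type} [Group U] [Group Q] (π : U →* Q) (K : Subgroup U)
    (h : (K.map π).FG) : ∃ T : Set U, T.Finite ∧ T ⊆ K ∧
      ∀ a ∈ K, ∃ w ∈ Subgroup.closure T, π w = π a := by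
  obtain ⟨S, hS, hfin⟩ := (Subgroup.fg_iff _).1 h
  have h1 : ∀ s ∈ S, ∃ x ∈ K, π x = s := fun s hs =>
    Subgroup.mem_map.1 (hS ▸ Subgroup.subset_closure hs)
  choose! g hg1 hg2 using h1
  refine ⟨g '' S, hfin.image g, ?_, fun a ha => ?_⟩
  · rintro _ ⟨s, hs, rfl⟩
    exact hg1 s hs
  · have h2 : K.map π ≤ (Subgroup.closure (g '' S)).map π := by
      rw [← hS, Subgroup.closure_le]
      exact fun s hs => ⟨g s, Subgroup.subset_closure ⟨s, hs, rfl⟩, hg2 s hs⟩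
    exact h2 ⟨a, ha, rfl⟩

theorem CentA_ker {U : Type} [Group U] [Group.FG U] (d : U →* Multiplicative ℤ) (Z : Subgroup U)
    (hZ : Z ≤ d.ker) (hc : ∀ k ∈ Z, ∀ g, k * g = g * k) (T : Set U) (hT : T.Finite)
    (hTK : T ⊆ d.ker) (h : ∀ a ∈ d.ker, ∃ k ∈ Z, k⁻¹ * a ∈ Subgroup.closure T) : d.ker.FG := by
  obtain ⟨t, ht⟩ := CentA_gen d
  by_cases h0 : d t = 1
  · have h1 : d.ker = ⊤ := by
      refine (Subgroup.eq_top_iff' _).2 fun g => ?_
      obtain ⟨n, hn⟩ := ht g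
      rw [← inv_mul_cancel_right g (t ^ n)]
      exact mul_mem hn (zpow_mem (MonoidHom.mem_ker.2 h0) n)
    rw [h1]
    exact Group.fg_def.1 inferInstance
  obtain ⟨S, hS, hfin⟩ := Group.fg_iff.1 ‹Group.FG U›
  choose n hn using ht
  choose! κ hκ1 hκ2 using h
  let A : Set U := (fun s => s * (t ^ n s)⁻¹) '' S ∪
    ((fun u => t * u * t⁻¹) '' T ∪ (fun u => t⁻¹ * u * t⁻¹⁻¹) '' T)
  have hA : A.Finite := (hfin.image _).union ((hT.image _).union (hT.image _))
  have hAK : ∀ a ∈ A, a ∈ d.ker := by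
    rintro _ (⟨s, -, rfl⟩ | ⟨u, hu, rfl⟩ | ⟨u, hu, rfl⟩)
    · exact hn s
    · exact (MonoidHom.normal_ker d).conj_mem u (hTK hu) t
    · exact (MonoidHom.normal_ker d).conj_mem u (hTK hu) t⁻¹
  let N : Subgroup U := Subgroup.closure (T ∪ κ '' A)
  have hAN : ∀ a ∈ A, a ∈ N := fun a ha => by
    rw [← mul_inv_cancel_left (κ a) a]
    exact mul_mem (Subgroup.subset_closure (Or.inr ⟨a, ha, rfl⟩))
      (Subgroup.closure_mono Set.subset_union_left (hκ2 a (hAK a ha)))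
  have hNK : N ≤ d.ker := by
    refine (Subgroup.closure_le _).2 ?_
    rintro _ (hu | ⟨a, ha, rfl⟩)
    · exact hTK hu
    · exact hZ (hκ1 a (hAK a ha))
  have hconj : ∀ e : U, (∀ u ∈ T, e * u * e⁻¹ ∈ A) → ∀ a ∈ N, e * a * e⁻¹ ∈ N := by
    intro e he
    have h1 : N ≤ N.comap (MulAut.conj e).toMonoidHom := by
      refine (Subgroup.closure_le _).2 ?_
      rintro _ (hu | ⟨a, ha, rfl⟩)
      · exact hAN _ (he _ hu)
      · change e * κ a * e⁻¹ ∈ N
        rw [← hc _ (hκ1 a (hAK a ha)), mul_inv_cancel_right]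
        exact Subgroup.subset_closure (Or.inr ⟨a, ha, rfl⟩)
    exact fun a ha => h1 ha
  have hnorm : Subgroup.zpowers t ≤ Subgroup.normalizer (N : Set U) := by
    rw [Subgroup.zpowers_le, Subgroup.mem_normalizer_iff]
    refine fun a => ⟨hconj t (fun u hu => Or.inr (Or.inl ⟨u, hu, rfl⟩)) a, fun ha => ?_⟩
    have h1 := hconj t⁻¹ (fun u hu => Or.inr (Or.inr ⟨u, hu, rfl⟩)) _ ha
    simpa [mul_assoc] using h1
  have htop : N ⊔ Subgroup.zpowers t = ⊤ := by
    rw [eq_top_iff, ← hS, Subgroup.closure_le]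
    intro s hs
    rw [← inv_mul_cancel_right s (t ^ n s)]
    exact Subgroup.mul_mem_sup (hAN _ (Or.inl ⟨s, hs, rfl⟩)) (Subgroup.zpow_mem_zpowers t _)
  refine (Subgroup.fg_iff _).2 ⟨T ∪ κ '' A, le_antisymm hNK fun m hm => ?_, hT.union (hA.image κ)⟩
  have h1 : m ∈ ((N ⊔ Subgroup.zpowers t : Subgroup U) : Set U) := htop ▸ Subgroup.mem_top m
  rw [Subgroup.coe_mul_of_right_le_normalizer_left N _ hnorm] at h1
  obtain ⟨a, ha, _, ⟨j, rfl⟩, rfl⟩ := h1
  have h2 : d t ^ j = 1 := by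
    have h3 := MonoidHom.mem_ker.1 hm
    rwa [map_mul, MonoidHom.mem_ker.1 (hNK ha), one_mul, map_zpow] at h3
  have h3 : j = 0 := by
    by_contra h4
    exact h0 ((isOfFinOrder_iff_zpow_eq_one.2 ⟨j, h4, h2⟩).eq_one')
  subst h3
  simpa using ha

theorem cent_polyZ {Q : Type} [Group Q] (hQ : PolyZ Q) : ∀ (U : Type) [Group U] [Group.FG U]
    (π : U →* Q), (∀ k ∈ π.ker, ∀ g, k * g = g * k) → GS.TF U → PolyZ U := by
  induction hQ with
  | triv Q h =>
    intro U _ _ π hc hT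
    exact PT.Ab_poly (fun a b => hc a (Subsingleton.elim _ _) b) hT
  | ext Q h hk ih =>
    intro U _ _ π hc hT
    have hle : (h.comp π).ker.map π ≤ h.ker := by
      rintro _ ⟨x, hx, rfl⟩
      exact hx
    obtain ⟨T, t1, t2, t3⟩ := CentA_lift π (h.comp π).ker ((Group.fg_iff_subgroup_fg _).1
      (CentA_fg (polyZ_of_injective hk _ (Subgroup.inclusion hle)
        (Subgroup.inclusion_injective hle))))
    have hfg : (h.comp π).ker.FG := by
      refine CentA_ker (h.comp π) π.ker (fun k hk => ?_) hc T t1 t2 fun a ha => ?_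
      · rw [MonoidHom.mem_ker, MonoidHom.comp_apply, MonoidHom.mem_ker.1 hk, map_one]
      · obtain ⟨w, hw, e⟩ := t3 a ha
        refine ⟨a * w⁻¹, ?_, by simpa using hw⟩
        rw [MonoidHom.mem_ker, map_mul, map_inv, e, mul_inv_cancel]
    have := (Group.fg_iff_subgroup_fg _).2 hfg
    exact PolyZ.ext U (h.comp π) (ih _ ((π.comp (h.comp π).ker.subtype).codRestrict h.ker
      fun x => x.2) (fun k hk g => Subtype.ext (hc k (congrArg Subtype.val hk) g))
      (hT.sub _ (h.comp π).ker.subtype_injective))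

end Pool.Agent.MP_f7db47_al.GL
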