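import Pool.Agent.MP_f7db47_al.GL.CentA
import Pool.Agent.MP_f7db47_al.GS.GlA
import Pool.Agent.MP_f7db47_al.GF.BFin

/-!
Virtually central extensions of linear groups.
-/

namespace Pool.Agent.MP_f7db47_al.GL

universe v

variable {R : Type v} [Ring R]

theorem CentB_fi {G H : Type} [Group G] [Group H] (U : Subgroup G) [U.FiniteIndex] (f : H →* G) :
    (U.comap f).FiniteIndex := by
  refine ⟨?_⟩
  rw [Subgroup.index_comap]
  exact Subgroup.FiniteIndex.index_ne_zero (H := U.subgroupOf f.range)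

theorem vp_cent {M A : Type} [Group M] [Group.FG M] [CommRing A] {n : ℕ}
    (f : M →* GL (Fin n) A) (M₀ : Subgroup M) [M₀.FiniteIndex]
    (hc : ∀ k ∈ f.ker, ∀ g ∈ M₀, k * g = g * k) (hT : GS.TF M) (h : ∀ g, GF.QU (f g).val) :
    GS.VP M := by
  obtain ⟨W, _, hW⟩ := GS.vp_of_quasiA f.range.subtype f.range.subtype_injective (by
    rintro ⟨_, g, rfl⟩
    exact h g)
  have := CentB_fi W f.rangeRestrict
  let U : Subgroup M := M₀ ⊓ W.comap f.rangeRestrict
  refine ⟨U, inferInstance, cent_polyZ hW U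
    ((f.rangeRestrict.comp U.subtype).codRestrict W fun x => x.2.2) (fun k hk g => ?_)
    (hT.sub U.subtype U.subtype_injective)⟩
  exact Subtype.ext (hc k (congrArg (fun z : W => z.1.1) hk) g g.2.1)

theorem qq_cent (hR : RegularRing R) {G A : Type} [Group G] [CommRing A] {n : ℕ}
    (f : G →* GL (Fin n) A) (G₀ : Subgroup G) [G₀.FiniteIndex]
    (hc : ∀ k ∈ f.ker, ∀ g ∈ G₀, k * g = g * k) (hT : GS.TF G) : QQ R G := by
  refine GS.qq_glA GF.stB f fun H φ h => ?_
  have hH := hT.sub _ H.subtype_injective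
  have hV : ∀ (M : Type) [Group M] [Group.FG M] (i : M →* H), Function.Injective i →
      (∀ x, φ (i x) = 1) → GS.VP M := fun M _ _ i hi hM =>
    have := CentB_fi G₀ (H.subtype.comp i)
    vp_cent (f.comp (H.subtype.comp i)) (G₀.comap (H.subtype.comp i))
      (fun k hk g hg => hi (Subtype.ext (by simpa using hc _ hk _ hg))) (hH.sub i hi)
      fun g => h _ (hM g)
  refine GS.qq_line_vp hR hH φ (PT.qq_loc fun M hM => ?_) fun M hM hle => ?_
  · have := (Group.fg_iff_subgroup_fg M).2 hM
    have hi := φ.ker.subtype_injective.comp M.subtype_injective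
    exact GS.qq_vp hR (hH.sub (φ.ker.subtype.comp M.subtype) hi)
      (hV M (φ.ker.subtype.comp M.subtype) hi fun x => x.1.2)
  · have := (Group.fg_iff_subgroup_fg M).2 hM
    exact hV M M.subtype M.subtype_injective fun x => hle x.2

end Pool.Agent.MP_f7db47_al.GL
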