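import Mathlib

/-!
The adjoint representation of a Lie group.
-/

namespace Pool.Agent.MP_f7db47_al.GL

open Filter Topology

section
variable {E : Type} [NormedAddCommGroup E] [NormedSpace ℝ E]
  {L : Type} [TopologicalSpace L] [ChartedSpace E L]

/-- `A` is the derivative of `f` at `x`. -/
def LieAd_H (f : L → L) (x : L) (A : E →L[ℝ] E) : Prop :=
  HasMFDerivAt (modelWithCornersSelf ℝ E) (modelWithCornersSelf ℝ E) f x A

lemma LieAd_comp {f g : L → L} {x y : L} {A B : E →L[ℝ] E} (hg : LieAd_H g y B)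
    (hf : LieAd_H f x A) (e : f x = y) : LieAd_H (fun z => g (f z)) x (B.comp A) := by
  subst e
  exact HasMFDerivAt.comp x hg hf

lemma LieAd_uniq {f : L → L} {x : L} {A B : E →L[ℝ] E} (h : LieAd_H f x A)
    (h' : LieAd_H f x B) : A = B := hasMFDerivAt_unique h h'

lemma LieAd_ex {f : L → L}
    (h : ContMDiff (modelWithCornersSelf ℝ E) (modelWithCornersSelf ℝ E) 1 f) (x : L) :
    ∃ A : E →L[ℝ] E, LieAd_H f x A :=
  ⟨_, (h.mdifferentiableAt one_ne_zero).hasMFDerivAt⟩

lemma LieAd_id (x : L) : LieAd_H (fun z : L => z) x (ContinuousLinearMap.id ℝ E) :=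
  hasMFDerivAt_id x

lemma LieAd_const [IsManifold (modelWithCornersSelf ℝ E) 1 L] {f : L → L}
    (h : ∀ x, LieAd_H f x (0 : E →L[ℝ] E)) : IsLocallyConstant f := by
  refine (IsLocallyConstant.iff_eventually_eq f).2 fun a => ?_
  have hc : Continuous f := continuous_iff_continuousAt.2 fun x => (h x).1
  set e := chartAt E a
  set e' := chartAt E (f a)
  have ha : a ∈ e.source := mem_chart_source E a
  have ha' : f a ∈ e'.source := mem_chart_source E (f a)
  have hs := e.isOpen_inter_preimage_symm (e'.open_source.preimage hc)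
  have hd : ∀ z ∈ e.target ∩ e.symm ⁻¹' (f ⁻¹' e'.source),
      HasFDerivAt (e' ∘ f ∘ e.symm) (0 : E →L[ℝ] E) z := fun z hz => by
    have h1 := (mdifferentiableAt_atlas_symm (I := modelWithCornersSelf ℝ E)
      (chart_mem_atlas E a) hz.1).hasMFDerivAt
    have h2 := (mdifferentiableAt_atlas (I := modelWithCornersSelf ℝ E)
      (chart_mem_atlas E (f a)) hz.2).hasMFDerivAt
    have h3 := HasMFDerivAt.comp z h2 (HasMFDerivAt.comp z (h (e.symm z)) h1)
    refine (h3.congr_mfderiv (ContinuousLinearMap.ext fun v => ?_)).hasFDerivAt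
    exact (mfderiv (modelWithCornersSelf ℝ E) (modelWithCornersSelf ℝ E) e'
      (f (e.symm z))).map_zero
  have ht := hs.isOpen_inter_preimage_of_fderiv_eq_zero
    (fun z hz => (hd z hz).differentiableAt.differentiableWithinAt)
    (fun z hz => (hd z hz).fderiv) {e' (f a)}
  have h4 := (e.continuousAt ha).eventually (ht.mem_nhds ⟨⟨e.map_source ha, by
    simpa only [Set.mem_preimage, e.left_inv ha] using ha'⟩, by
    simp only [Set.mem_preimage, Function.comp_apply, e.left_inv ha, Set.mem_singleton_iff]⟩)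
  filter_upwards [h4, e.open_source.mem_nhds ha] with x hx hx'
  obtain ⟨⟨-, h5⟩, h6⟩ := hx
  simp only [Set.mem_preimage, Function.comp_apply, e.left_inv hx', Set.mem_singleton_iff] at h5 h6
  exact e'.injOn h5 ha' h6

variable [Group L] [LieGroup (modelWithCornersSelf ℝ E) 1 L]

lemma LieAd_mul {f : L → L} {A : E →L[ℝ] E} (hf : LieAd_H f 1 A) (h1 : f 1 = 1) :
    LieAd_H (fun y => f y * y) 1 (A + ContinuousLinearMap.id ℝ E) := by
  have hm := (contMDiff_mul (G := L) (modelWithCornersSelf ℝ E) 1).mdifferentiableAt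
    (x := (f 1, 1)) one_ne_zero
  have h2 := HasMFDerivAt.comp (f := fun y => (f y, y)) 1 hm.hasMFDerivAt
    (HasMFDerivAt.prodMk hf (hasMFDerivAt_id (1 : L)))
  refine h2.congr_mfderiv (ContinuousLinearMap.ext fun v => ?_)
  refine (mfderiv_prod_eq_add_apply hm).trans ?_
  have e1 : LieAd_H (fun z : L => z * 1) (f 1) (ContinuousLinearMap.id ℝ E) := by
    simpa only [mul_one] using LieAd_id (f 1)
  have e2 : LieAd_H (fun z : L => f 1 * z) 1 (ContinuousLinearMap.id ℝ E) := by
    simpa only [h1, one_mul] using LieAd_id (1 : L)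
  exact congrArg₂ (fun a b : E => a + b) (DFunLike.congr_fun (HasMFDerivAt.mfderiv e1) _)
    (DFunLike.congr_fun (HasMFDerivAt.mfderiv e2) _)

lemma LieAd_smooth (g h : L) : ContMDiff (modelWithCornersSelf ℝ E) (modelWithCornersSelf ℝ E) 1
    fun x : L => g * x * h := (contMDiff_const.mul contMDiff_id).mul contMDiff_const

lemma LieAd_ker {k : L} (h : LieAd_H (fun x => k * x * k⁻¹) 1 (ContinuousLinearMap.id ℝ E)) :
    ∀ g ∈ connectedComponent (1 : L), k * g = g * k := by
  obtain ⟨A, hA⟩ := LieAd_ex (E := E) (f := fun x => k * x * k⁻¹ * x⁻¹)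
    ((LieAd_smooth k k⁻¹).mul (contMDiff_inv _ _)) 1
  have h1 := LieAd_mul hA (by simp)
  simp only [inv_mul_cancel_right] at h1
  obtain rfl : A = 0 := add_eq_right.1 (LieAd_uniq h1 h)
  have h2 : ∀ a, LieAd_H (fun x => k * x * k⁻¹ * x⁻¹) a (0 : E →L[ℝ] E) := fun a => by
    obtain ⟨B, hB⟩ := LieAd_ex (LieAd_smooth (E := E) a⁻¹ 1) a
    obtain ⟨C, hC⟩ := LieAd_ex (LieAd_smooth (E := E) (k * a * k⁻¹) a⁻¹) 1
    have h3 := LieAd_comp hC (LieAd_comp hA hB (by simp)) (by simp)
    rw [ContinuousLinearMap.zero_comp, ContinuousLinearMap.comp_zero] at h3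
    convert h3 using 2
    group
  intro g hg
  have h4 := (LieAd_const h2).apply_eq_of_isPreconnected isPreconnected_connectedComponent hg
    mem_connectedComponent
  simp only [mul_one, mul_inv_cancel, inv_one] at h4
  exact mul_inv_eq_iff_eq_mul.1 (mul_inv_eq_one.1 h4)

end

theorem exists_ad (E : Type) [NormedAddCommGroup E] [NormedSpace ℝ E] [FiniteDimensional ℝ E]
    (L : Type) [TopologicalSpace L] [ChartedSpace E L] [Group L]
    [LieGroup (modelWithCornersSelf ℝ E) 1 L] :
    ∃ (n : ℕ) (f : L →* GL (Fin n) ℝ),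
      ∀ k ∈ f.ker, ∀ g ∈ connectedComponent (1 : L), k * g = g * k := by
  choose D hD using fun g : L => LieAd_ex (LieAd_smooth (E := E) g g⁻¹) 1
  let b := Module.finBasis ℝ E
  let F : L →* Matrix (Fin (Module.finrank ℝ E)) (Fin (Module.finrank ℝ E)) ℝ :=
    { toFun := fun g => LinearMap.toMatrix b b (D g)
      map_one' := by
        have : D 1 = ContinuousLinearMap.id ℝ E :=
          LieAd_uniq (hD 1) (by simpa only [one_mul, inv_one, mul_one] using LieAd_id (1 : L))
        simp [this]
      map_mul' := fun g h => by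
        have : D (g * h) = (D g).comp (D h) := LieAd_uniq (hD (g * h)) (by
          simpa only [mul_inv_rev, mul_assoc] using LieAd_comp (hD g) (hD h) (by simp))
        rw [this, ← LinearMap.toMatrix_comp]
        rfl }
  refine ⟨_, F.toHomUnits, fun k hk => LieAd_ker (E := E) ?_⟩
  have h1 : LinearMap.toMatrix b b (D k) = LinearMap.toMatrix b b LinearMap.id :=
    (congrArg Units.val hk).trans (LinearMap.toMatrix_id b).symm
  have h2 : D k = ContinuousLinearMap.id ℝ E :=
    ContinuousLinearMap.ext fun v => DFunLike.congr_fun ((LinearMap.toMatrix b b).injective h1) v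
  exact h2 ▸ hD k

theorem exists_comp (L : Type) [TopologicalSpace L] [Group L] [IsTopologicalGroup L]
    [Finite (ConnectedComponents L)] :
    ∃ L₀ : Subgroup L, L₀.FiniteIndex ∧ ∀ g ∈ L₀, g ∈ connectedComponent (1 : L) := by
  have key : ∀ x y : L, y ∈ connectedComponent x → x⁻¹ * y ∈ connectedComponent (1 : L) :=
    fun x y h => by
      have := (continuous_const_mul x⁻¹).image_connectedComponent_subset x ⟨y, h, rfl⟩
      rwa [inv_mul_cancel] at this
  have : Finite (L ⧸ Subgroup.connectedComponentOfOne L) := by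
    refine Finite.of_injective (fun x => ConnectedComponents.mk x.out) fun x y h => ?_
    rw [← x.out_eq, ← y.out_eq]
    exact QuotientGroup.eq.2 (key _ _ (ConnectedComponents.coe_eq_coe'.1 h.symm))
  exact ⟨Subgroup.connectedComponentOfOne L, Subgroup.finiteIndex_of_finite_quotient,
    fun g hg => hg⟩

end Pool.Agent.MP_f7db47_al.GL
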