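import Pool.Agent.MP_f7db47_al.GL.CentB
import Pool.Agent.MP_f7db47_al.GL.LieAd

/-!
Subgroups of almost connected Lie groups.
-/

namespace Pool.Agent.MP_f7db47_al.GL

universe v

variable {R : Type v} [Ring R]

theorem qq_lie (hR : RegularRing R) (E : Type) [NormedAddCommGroup E] [NormedSpace ℝ E]
    [FiniteDimensional ℝ E] (L : Type) [TopologicalSpace L] [ChartedSpace E L] [Group L]
    [LieGroup (modelWithCornersSelf ℝ E) 1 L] [Finite (ConnectedComponents L)] (G : Subgroup L)
    (hT : ∀ g : G, IsOfFinOrder g → g = 1) : QQ R G := by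
  obtain ⟨n, f, hf⟩ := exists_ad E L
  have := topologicalGroup_of_lieGroup (modelWithCornersSelf ℝ E) 1 (G := L)
  obtain ⟨L₀, h0, h1⟩ := exists_comp L
  exact qq_cent hR (f.comp G.subtype) (L₀.subgroupOf G)
    (fun k hk g hg => Subtype.ext (hf k hk g (h1 g hg))) hT

end Pool.Agent.MP_f7db47_al.GL
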